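import Mathlib
import Pool.Agent.H791R3.Lattice

set_option autoImplicit false

/-! Similar tetrahedra spanned by `n` points of 3-space: the lower bound `n ^ (5/3)`. -/

namespace Pool.Agent.Results.MP_36f34d_co.FiveThirds

open Filter

/-- Euclidean 3-space -/
abbrev E3 := EuclideanSpace ℝ (Fin 3)

/-- `T'` is the image of `T` under a similarity of `ℝ³`: a scaling by a positive factor followed by
an isometry. -/
def Similar (T T' : Finset E3) : Prop :=
  ∃ (f : E3 ≃ᵢ E3) (r : ℝ), 0 < r ∧ (fun x => f (r • x)) '' (T : Set E3) = (T' : Set E3)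

/-- A tetrahedron: four points that do not lie in a plane. -/
def IsTetrahedron (T : Finset E3) : Prop :=
  T.card = 4 ∧ AffineIndependent ℝ (fun x : T => (x : E3))

/-- `s P T`: the number of 4-element subsets of `P` that are similar to `T`. -/
noncomputable def s (P T : Finset E3) : ℕ := by
  classical
  exact ((P.powersetCard 4).filter fun S => Similar T S).card

/-- `f n`: the largest number of similar copies of a tetrahedron spanned by `n` points. -/
noncomputable def f (n : ℕ) : ℕ :=
  sSup {m : ℕ | ∃ P T : Finset E3, P.card = n ∧ IsTetrahedron T ∧ s P T = m}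

theorem s_le_f (P T : Finset E3) (hT : IsTetrahedron T) : s P T ≤ f P.card := by
  classical
  refine le_csSup ⟨2 ^ P.card, ?_⟩ ⟨P, T, rfl, hT, rfl⟩
  rintro m ⟨P', T', h1, h2, rfl⟩
  unfold s
  refine (Finset.card_le_card (Finset.filter_subset _ _)).trans ?_
  rw [Finset.card_powersetCard, ← h1]
  exact Nat.choose_le_two_pow _ _

theorem similar_card {T T' : Finset E3} (h : Similar T T') : T'.card = T.card := by
  classical
  obtain ⟨g, r, hr, hg⟩ := h
  have h1 : T.image (fun x => g (r • x)) = T' := by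
    apply Finset.coe_injective
    rw [Finset.coe_image, hg]
  rw [← h1, Finset.card_image_of_injective]
  intro x y hxy
  have := g.injective hxy
  exact smul_right_injective E3 hr.ne' this

/-- the standard corner tetrahedron -/
noncomputable def corner : Finset E3 :=
  ({0, Pi.single 0 1, Pi.single 1 1, Pi.single 2 1} : Finset (Fin 3 → ℤ)).image
    (Pool.Agent.H791R3.emb 1)

theorem corner_tet : IsTetrahedron corner := by
  classical
  have hv : ∀ (i : Fin 4), (![0, Pi.single 0 1, Pi.single 1 1, Pi.single 2 1] :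
      Fin 4 → Fin 3 → ℤ) i ∈ ({0, Pi.single 0 1, Pi.single 1 1, Pi.single 2 1} :
      Finset (Fin 3 → ℤ)) := by decide
  have hcard : corner.card = 4 := by
    unfold corner
    rw [Finset.card_image_of_injective _ (Pool.Agent.H791R3.emb_inj 1 one_ne_zero)]
    decide
  refine ⟨hcard, ?_⟩
  set w : Fin 4 → E3 := fun i => Pool.Agent.H791R3.emb 1
    ((![0, Pi.single 0 1, Pi.single 1 1, Pi.single 2 1] : Fin 4 → Fin 3 → ℤ) i) with hw
  have hset : (corner : Set E3) = Set.range w := by
    ext x
    simp only [corner, Finset.coe_image, Set.mem_image, Finset.mem_coe, Set.mem_range, hw]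
    constructor
    · rintro ⟨z, hz, rfl⟩
      simp only [Finset.mem_insert, Finset.mem_singleton] at hz
      rcases hz with rfl | rfl | rfl | rfl
      · exact ⟨0, rfl⟩
      · exact ⟨1, rfl⟩
      · exact ⟨2, rfl⟩
      · exact ⟨3, rfl⟩
    · rintro ⟨i, rfl⟩
      exact ⟨_, hv i, rfl⟩
  have haff : AffineIndependent ℝ w := by
    rw [affineIndependent_iff_linearIndependent_vsub ℝ w 0]
    have h0 : w 0 = 0 := by
      ext j
      simp [hw, Pool.Agent.H791R3.emb]
    have h1 : LinearIndependent ℝ (fun i : Fin 3 => EuclideanSpace.single i (1 : ℝ)) := by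
      have h0 : (fun i : Fin 3 => EuclideanSpace.single i (1 : ℝ)) =
          ((EuclideanSpace.basisFun (Fin 3) ℝ).toBasis : Fin 3 → EuclideanSpace ℝ (Fin 3)) := by
        funext i
        simp
      rw [h0]
      exact (EuclideanSpace.basisFun (Fin 3) ℝ).toBasis.linearIndependent
    have hg : ∀ i : {x : Fin 4 // x ≠ 0}, ∃ j : Fin 3, (i : Fin 4) = j.succ := by
      rintro ⟨i, hi⟩
      exact ⟨i.pred hi, by simp⟩
    choose g hg using hg
    have hginj : Function.Injective g := by
      intro a b hab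
      apply Subtype.ext
      rw [hg a, hg b, hab]
    have h2 := h1.comp g hginj
    have h3 : (fun i : {x : Fin 4 // x ≠ 0} => w i -ᵥ w 0) =
        (fun i : Fin 3 => EuclideanSpace.single i (1 : ℝ)) ∘ g := by
      funext i
      simp only [Function.comp_apply, h0, vsub_eq_sub, sub_zero]
      rw [hg i]
      generalize g i = j
      ext l
      fin_cases j <;> fin_cases l <;> simp [hw, Pool.Agent.H791R3.emb]
    rw [h3]
    exact h2
  have h3 := haff.range
  rw [← hset] at h3
  exact h3

/-- Every tetrahedron `T` with integer vertices has at least `c n ^ (5/3)` similar copies among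
suitable `n` points of `ℝ³`, for all large `n`; in particular `f n ≥ c n ^ (5/3)`. -/
theorem result :
    (∀ T : Finset E3, IsTetrahedron T → (∀ x ∈ T, ∀ i, ∃ z : ℤ, x i = z) →
      ∃ c : ℝ, 0 < c ∧ ∀ᶠ n : ℕ in atTop, ∃ P : Finset E3, P.card = n ∧
        c * (n : ℝ) ^ (5 / 3 : ℝ) ≤ s P T) ∧
    ∃ c : ℝ, 0 < c ∧ ∀ᶠ n : ℕ in atTop, c * (n : ℝ) ^ (5 / 3 : ℝ) ≤ f n := by
  classical
  have main : ∀ T : Finset E3, IsTetrahedron T → (∀ x ∈ T, ∀ i, ∃ z : ℤ, x i = z) →
      ∃ c : ℝ, 0 < c ∧ ∀ᶠ n : ℕ in atTop, ∃ P : Finset E3, P.card = n ∧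
        c * (n : ℝ) ^ (5 / 3 : ℝ) ≤ s P T := by
    intro T hT hI
    obtain ⟨T', h1, rfl⟩ := Pool.Agent.H791R3.lattice_pattern T (by rw [hT.1]; norm_num) hT.2 hI
    obtain ⟨c, hc, h⟩ := Pool.Agent.H791R3.sim_main T' h1
    refine ⟨c, hc, ?_⟩
    filter_upwards [h] with n hn
    obtain ⟨P, 𝒮, hP, h2, h3⟩ := hn
    refine ⟨P, hP, h2.trans ?_⟩
    have h4 : 𝒮.card ≤ s P (T'.image (Pool.Agent.H791R3.emb 1)) := by
      unfold s
      refine Finset.card_le_card ?_
      intro S hS
      obtain ⟨h5, g, r, hr, hg⟩ := h3 S hS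
      have hsim : Similar (T'.image (Pool.Agent.H791R3.emb 1)) S := ⟨g, r, hr, hg⟩
      rw [Finset.mem_filter, Finset.mem_powersetCard]
      exact ⟨⟨h5, (similar_card hsim).trans hT.1⟩, hsim⟩
    exact_mod_cast h4
  refine ⟨main, ?_⟩
  obtain ⟨c, hc, h⟩ := main corner corner_tet (by
    intro x hx i
    obtain ⟨z, _, rfl⟩ := Finset.mem_image.1 hx
    exact ⟨z i, by simp [Pool.Agent.H791R3.emb]⟩)
  refine ⟨c, hc, ?_⟩
  filter_upwards [h] with n hn
  obtain ⟨P, hP, h1⟩ := hn
  refine h1.trans ?_
  have := s_le_f P corner corner_tet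
  rw [hP] at this
  exact_mod_cast this

end Pool.Agent.Results.MP_36f34d_co.FiveThirds
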